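import Mathlib
import Pool.Agent.H414G.Cp

set_option autoImplicit false

open Set Filter
open scoped Cardinal

namespace Pool.Agent.Results.MP_e2257e_gt.UnionBound

open Pool.Agent.H414G

/-- If `C_p(X i)` has property `α₂` at the zero function for each `i` and there are fewer than
`min 𝔟 𝔤_f` indices, then `C_p` of the union of the sets `X i` has this property. -/
theorem result {T : Type} [TopologicalSpace T] {ι : Type} (X : ι → Set T)
    (hS : ∀ i, CpSelection ↥(X i)) (hι : #ι < min bNum gfNum) : CpSelection ↥(⋃ i, X i) :=
  cp_union X hS hι

end Pool.Agent.Results.MP_e2257e_gt.UnionBound
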